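import Pool.Agent.H4.TN.GP

/-!
# MP_ee74d2_an, board tn, module CB1: convolutions in the first block
-/

set_option autoImplicit false

namespace Pool.Agent.H4.TN

open MeasureTheory Set FourierTransform
open Pool.Agent.H83.LS Pool.Agent.H93.AR Pool.Agent.H54.LS Pool.Agent.H14.LS Pool.Agent.H83.AR
open Pool.Agent.H84.BR Pool.Agent.H84.B2 Pool.Agent.H93.TN
open scoped ENNReal NNReal

theorem jm_sub_left (hJM : Pool.Agent.H83.AR.T_JM) (a b : ℕ) (x : EE (a + b)) (z : EE a) :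
    x - jm a b z 0 = jm a b (p1 a b x - z) (p2 a b x) := by
  obtain ⟨h1, h2, -⟩ := hJM a b
  have e1 : p1 a b (x - jm a b z 0) = p1 a b x - z := by
    have : p1 a b (x - jm a b z 0) = p1 a b x - p1 a b (jm a b z 0) := by
      ext i
      simp [p1]
    rw [this, (h1 z 0).1]
  have e2 : p2 a b (x - jm a b z 0) = p2 a b x := by
    have : p2 a b (x - jm a b z 0) = p2 a b x - p2 a b (jm a b z 0) := by
      ext i
      simp [p2]
    rw [this, (h1 z 0).2, sub_zero]
  rw [← h2 (x - jm a b z 0), e1, e2]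

theorem cb1_eq_gp (hJM : Pool.Agent.H83.AR.T_JM) (a b : ℕ) (κ : EE a → ℂ)
    (f : EE (a + b) → ℂ) :
    cb1 a b κ f = gp (volume : Measure (EE a)) κ (fun z => jm a b z 0) f := by
  funext x
  unfold cb1 gp
  have h1 : ∀ y : EE a, κ (p1 a b x - y) * f (jm a b y (p2 a b x)) =
      (fun z : EE a => κ z * f (x - jm a b z 0)) (p1 a b x - y) := by
    intro y
    simp only
    rw [jm_sub_left hJM, sub_sub_cancel]
  simp_rw [h1]
  exact integral_sub_left_eq_self (fun z : EE a => κ z * f (x - jm a b z 0)) volume (p1 a b x)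

theorem pf_cb1 (_hCNC : T_CNC) (hJM : Pool.Agent.H83.AR.T_JM) (_hPLE : T_PLE) : T_CB1 := by
  intro a b s f A B _ _ hs hB hf
  obtain ⟨hj1, hj2, hj3, -, hj5, hj6, hj7, -⟩ := hJM a b
  obtain ⟨hk1, hk2, hk3⟩ := MK_schwartz s hs
  have hτ : Measurable (fun z : EE a => jm a b z (0 : EE b)) :=
    (hj5.comp (continuous_id.prodMk continuous_const)).measurable
  have hgs : ∀ ξ, gs (volume : Measure (EE a)) (MK s) (fun z => jm a b z (0 : EE b)) ξ =
      s (p1 a b ξ) := by
    intro ξ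
    rw [← hk3 (p1 a b ξ)]
    unfold gs
    refine integral_congr_ae (ae_of_all _ fun z => ?_)
    simp only
    rw [hj3, (hj1 z 0).1, (hj1 z 0).2, inner_zero_left, add_zero]
  rw [cb1_eq_gp hJM]
  refine ⟨gp_BI _ hk2.measurable hk1 hτ hf, ?_, ?_, ?_, ?_⟩
  · intro ξ
    rw [gp_fourier _ hk2.measurable hk1 hτ hf.1 hf.2.1, hgs]
  · exact gp_L2 _ hk2.measurable hk1 hτ hf fun ξ => by rw [hgs]; exact hB _
  · intro x
    rw [← cb1_eq_gp hJM]
    rfl
  · intro m hm hmi x
    have e1 : (fun ξ => m ξ * gs (volume : Measure (EE a)) (MK s)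
        (fun z => jm a b z (0 : EE b)) ξ) = fun ξ => m ξ * s (p1 a b ξ) := by
      funext ξ
      rw [hgs]
    constructor
    · rw [gp_MM _ hk2.measurable hk1 hτ hf.1 hf.2.1, e1]
    · rw [cb1_eq_gp hJM, MM_gp _ hk2.measurable hk1 hτ hf.2.1 m hm hmi, e1]

end Pool.Agent.H4.TN
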