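import Pool.Agent.H4.TN.GP
import Pool.Agent.H33.AR.ZC

/-!
# MP_ee74d2_an, board tn, module CMT: block convolutions, averages and multipliers commute
-/

set_option autoImplicit false

namespace Pool.Agent.H4.TN

open MeasureTheory Set FourierTransform
open Pool.Agent.H83.LS Pool.Agent.H93.AR Pool.Agent.H54.LS Pool.Agent.H14.LS Pool.Agent.H83.AR
open Pool.Agent.H84.BR Pool.Agent.H84.B2 Pool.Agent.H93.TN
open scoped ENNReal NNReal

theorem int_one {Z : Type} [MeasurableSpace Z] (μ : Measure Z) (z : Z → ℝ) (hm : Measurable z)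
    (h0 : ∀ w, 0 ≤ z w) (h1 : ∫⁻ w, ENNReal.ofReal (z w) ∂μ = 1) :
    Measurable (fun w => ((z w : ℝ) : ℂ)) ∧ Integrable (fun w => ((z w : ℝ) : ℂ)) μ := by
  refine ⟨Complex.measurable_ofReal.comp hm, ?_⟩
  apply Integrable.ofReal
  refine ⟨hm.aestronglyMeasurable, ?_⟩
  rw [hasFiniteIntegral_iff_ofReal (ae_of_all _ h0), h1]
  exact ENNReal.one_lt_top

theorem meas_snd {X Y : Type} [MeasurableSpace X] [MeasurableSpace Y] (F : X → Y → ℝ)
    (h : Measurable fun q : X × Y => F q.1 q.2) (x : X) {Z : Type} [MeasurableSpace Z] (v : Z → Y)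
    (hv : Measurable v) : Measurable fun w => F x (v w) := by
  have h1 : Measurable fun w => (x, v w) := measurable_const.prodMk hv
  exact h.comp h1

/-- the weights of the angular averages are integrable on the sphere -/
theorem zk_int (hZB : T_ZB) (hZN : T_ZN) {n : ℕ} (hn : 1 ≤ n) {L : ℝ} (hL : 1 ≤ L) (u : EE n)
    (hu : u = 0 ∨ ‖u‖ = 1) :
    Measurable (fun w : Sp n => ((zk n L u (w : EE n) : ℝ) : ℂ)) ∧
    Integrable (fun w : Sp n => ((zk n L u (w : EE n) : ℝ) : ℂ)) (sg n) := by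
  obtain ⟨C, hC⟩ := hZB n hn
  have h1 := (hC L hL).1
  have h3 := (hC L hL).2.2.1
  have hm : Measurable (fun w : Sp n => zk n L u (w : EE n)) :=
    meas_snd (zk n L) h1 u (fun w : Sp n => (w : EE n)) measurable_subtype_coe
  exact int_one (sg n) _ hm (fun w => h3 u w) (hZN n L u hn hL hu)

theorem unit_or {n : ℕ} (x : EE n) : ‖x‖⁻¹ • x = 0 ∨ ‖‖x‖⁻¹ • x‖ = 1 := by
  by_cases h : x = 0
  · left
    rw [h, smul_zero]
  · right
    rw [norm_smul, norm_inv, norm_norm, inv_mul_cancel₀ (norm_ne_zero_iff.2 h)]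

theorem cmt1 (hZB : T_ZB) (hZN : T_ZN) (hJM : Pool.Agent.H83.AR.T_JM) (a b : ℕ) (L A : ℝ)
    (f : EE (a + b) → ℂ) (hb : 1 ≤ b) (hL : 1 ≤ L) (hf : BI A f) (s : EE a → ℂ)
    (x : EE (a + b)) (hs : SC s) :
    A2 a b L (cb1 a b (MK s) f) x = cb1 a b (MK s) (A2 a b L f) x := by
  obtain ⟨hj1, -, -, -, hj5, -⟩ := hJM a b
  obtain ⟨hk1, hk2, -⟩ := MK_schwartz s hs
  unfold A2 cb1
  simp only [(hj1 _ _).1, (hj1 _ _).2]
  set u : EE b := ‖p2 a b x‖⁻¹ • p2 a b x with hu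
  set ρ : ℝ := ‖p2 a b x‖ with hρ
  obtain ⟨hz1, hz2⟩ := zk_int hZB hZN hb hL u (unit_or _)
  have e1 : ∀ w : Sp b, ((zk b L u (w : EE b) : ℝ) : ℂ) *
      ∫ y : EE a, MK s (p1 a b x - y) * f (jm a b y (ρ • (w : EE b))) =
      ∫ y : EE a, (((zk b L u (w : EE b) : ℝ) : ℂ) * MK s (p1 a b x - y)) *
        f (jm a b y (ρ • (w : EE b))) := by
    intro w
    rw [← integral_const_mul]
    refine integral_congr_ae (ae_of_all _ fun y => ?_)
    simp only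
    ring
  have e2 : ∀ y : EE a, MK s (p1 a b x - y) *
      ∫ w : Sp b, ((zk b L u (w : EE b) : ℝ) : ℂ) * f (jm a b y (ρ • (w : EE b))) ∂(sg b) =
      ∫ w : Sp b, (((zk b L u (w : EE b) : ℝ) : ℂ) * MK s (p1 a b x - y)) *
        f (jm a b y (ρ • (w : EE b))) ∂(sg b) := by
    intro y
    rw [← integral_const_mul]
    refine integral_congr_ae (ae_of_all _ fun w => ?_)
    simp only
    ring
  simp_rw [e1, e2]
  apply integral_integral_swap
  have hfm : Measurable (fun q : Sp b × EE a => f (jm a b q.2 (ρ • (q.1 : EE b)))) := by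
    have h1 : Continuous (fun q : Sp b × EE a => (q.2, ρ • (q.1 : EE b))) :=
      continuous_snd.prodMk ((continuous_subtype_val.comp continuous_fst).const_smul ρ)
    exact hf.1.comp (hj5.comp h1).measurable
  have hprod : Integrable (fun q : Sp b × EE a => ((zk b L u (q.1 : EE b) : ℝ) : ℂ) *
      MK s (p1 a b x - q.2)) ((sg b).prod volume) :=
    hz2.mul_prod (hk1.comp_sub_left (p1 a b x))
  have h2 := hprod.mul_bdd (c := A) hfm.aestronglyMeasurable (ae_of_all _ fun q => hf.2.2 _)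
  exact h2

theorem cmt2 (hAM1 : Pool.Agent.H93.AR.T_AM1) (hZB : T_ZB)
    (hJM : Pool.Agent.H83.AR.T_JM) (hSI : T_SI) (a b : ℕ) (L A : ℝ)
    (f : EE (a + b) → ℂ) (ha : 1 ≤ a) (hL : 1 ≤ L) (hf : BI A f) (m : EE (a + b) → ℂ)
    (hm : Measurable m) (hmi : Integrable m) (hmb : ∃ B : ℝ, ∀ ξ, ‖m ξ‖ ≤ B)
    (hmv : ∀ ξ ξ' : EE (a + b), ‖p1 a b ξ‖ = ‖p1 a b ξ'‖ → p2 a b ξ = p2 a b ξ' → m ξ = m ξ')
    (x : EE (a + b)) :
    MM m (A1 a b L f) x = A1 a b L (MM m f) x := by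
  obtain ⟨hj1, -, -, -, hj5, -⟩ := hJM a b
  obtain ⟨-, -, -, -, -, -, hA7⟩ := hAM1 a b L ha hL
  obtain ⟨C, hC⟩ := hZB a ha
  obtain ⟨-, -, -, -, -, -, hz7⟩ := hC L hL
  obtain ⟨B, hB⟩ := hmb
  have hB0 : 0 ≤ B := (norm_nonneg _).trans (hB 0)
  have hfb : ∀ ξ, ‖𝓕 f ξ‖ ≤ ∫ y, ‖f y‖ := by
    intro ξ
    rw [Pool.Agent.H19.LS.fourier_e]
    refine (norm_integral_le_integral_norm _).trans (le_of_eq ?_)
    congr 1
    ext y
    rw [norm_mul, norm_e, one_mul]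
  have hfc : Continuous (𝓕 f) := Pool.Agent.H19.LS.fourier_cont f hf.2.1
  set G : EE (a + b) → ℂ := fun ξ => m ξ * 𝓕 f ξ with hG
  have hGm : Measurable G := hm.mul hfc.measurable
  have hGi : Integrable G :=
    hmi.mul_bdd (c := ∫ y, ‖f y‖) hfc.aestronglyMeasurable (ae_of_all _ hfb)
  have hGb : ∃ B : ℝ, ∀ ξ, ‖G ξ‖ ≤ B := by
    refine ⟨B * ∫ y, ‖f y‖, fun ξ => ?_⟩
    rw [hG]
    simp only [norm_mul]
    exact mul_le_mul (hB ξ) (hfb ξ) (norm_nonneg _) hB0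
  -- multiplication by `m` commutes with the average
  have h1 : ∀ ξ, m ξ * 𝓕 (A1 a b L f) ξ = A1 a b L G ξ := by
    intro ξ
    rw [hA7 f hf.1 hf.2.1 ⟨A, hf.2.2⟩ ξ]
    unfold A1
    rw [← integral_const_mul]
    refine integral_congr_ae (ae_of_all _ fun w => ?_)
    simp only [hG]
    have : m (jm a b (‖p1 a b ξ‖ • (w : EE a)) (p2 a b ξ)) = m ξ := by
      apply hmv
      · rw [(hj1 _ _).1, norm_smul, norm_norm, Pool.Agent.H33.AR.nsp, mul_one]
      · rw [(hj1 _ _).2]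
    rw [this]
    ring
  have h2 : MM m (A1 a b L f) x = 𝓕 (A1 a b L G) (-x) := by
    rw [Pool.Agent.H19.LS.fourier_e]
    unfold MM
    refine integral_congr_ae (ae_of_all _ fun ξ => ?_)
    simp only
    rw [h1 ξ, inner_neg_right, neg_neg, real_inner_comm]
  have h3 : ∀ y, MM m f y = 𝓕 G (-y) := by
    intro y
    rw [Pool.Agent.H19.LS.fourier_e]
    unfold MM
    refine integral_congr_ae (ae_of_all _ fun ξ => ?_)
    simp only [hG]
    rw [inner_neg_right, neg_neg, real_inner_comm]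
  rw [h2, hA7 G hGm hGi hGb (-x)]
  unfold A1
  have hp1 : p1 a b (-x) = -p1 a b x := by
    ext i
    simp [p1]
  have hp2 : p2 a b (-x) = -p2 a b x := by
    ext i
    simp [p2]
  rw [hp1, hp2, norm_neg, smul_neg]
  rw [← Pool.Agent.H33.AR.sg_inv hSI a ha (LinearIsometryEquiv.neg ℝ) (fun v : EE a =>
    ((zk a L (-(‖p1 a b x‖⁻¹ • p1 a b x)) v : ℝ) : ℂ) *
      𝓕 G (jm a b (‖p1 a b x‖ • v) (-p2 a b x)))]
  refine integral_congr_ae (ae_of_all _ fun w => ?_)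
  simp only
  have e1 : (LinearIsometryEquiv.neg ℝ : EE a ≃ₗᵢ[ℝ] EE a) (w : EE a) = -(w : EE a) := rfl
  have e2 := hz7 (LinearIsometryEquiv.neg ℝ) (‖p1 a b x‖⁻¹ • p1 a b x) (w : EE a)
  have e3 : (LinearIsometryEquiv.neg ℝ : EE a ≃ₗᵢ[ℝ] EE a) (‖p1 a b x‖⁻¹ • p1 a b x) =
    -(‖p1 a b x‖⁻¹ • p1 a b x) := rfl
  rw [e1, e3] at e2
  have e4 : jm a b (‖p1 a b x‖ • -(w : EE a)) (-p2 a b x) =
      -jm a b (‖p1 a b x‖ • (w : EE a)) (p2 a b x) := by
    ext i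
    unfold jm
    simp only [PiLp.neg_apply]
    refine Fin.addCases (fun j => ?_) (fun j => ?_) i
    · simp [Fin.append_left]
    · simp [Fin.append_right]
  rw [e1, e2, h3, e4]

theorem pf_cmt (_hCNC : T_CNC) (hAM1 : Pool.Agent.H93.AR.T_AM1) (hZB : T_ZB) (hZN : T_ZN)
    (hJM : Pool.Agent.H83.AR.T_JM) (_hPLE : T_PLE) (hSI : T_SI) : T_CMT := by
  intro a b L A f ha hb hL hf
  exact ⟨fun s x hs => cmt1 hZB hZN hJM a b L A f hb hL hf s x hs,
    fun m hm hmi hmb hmv x => cmt2 hAM1 hZB hJM hSI a b L A f ha hL hf m hm hmi hmb hmv x⟩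

end Pool.Agent.H4.TN
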