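import Pool.Agent.H93.TN.TargetsB
import Pool.Agent.H19.LS.PLE

/-!
# MP_ee74d2_an, board tn: convolution with an integrable density carried by a map `τ : Z → ℝ^d`
-/

set_option autoImplicit false

namespace Pool.Agent.H4.TN

open MeasureTheory Set FourierTransform
open Pool.Agent.H83.LS Pool.Agent.H93.AR Pool.Agent.H54.LS Pool.Agent.H14.LS Pool.Agent.H83.AR
open Pool.Agent.H84.BR Pool.Agent.H84.B2 Pool.Agent.H93.TN
open scoped ENNReal NNReal

section GP

variable {d : ℕ} {Z : Type} [MeasurableSpace Z]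

/-- `P f (x) = ∫ k(z) f(x - τ z) dρ(z)` -/
noncomputable def gp (ρ : Measure Z) (k : Z → ℂ) (τ : Z → EE d) (f : EE d → ℂ) (x : EE d) : ℂ :=
  ∫ z, k z * f (x - τ z) ∂ρ

/-- its symbol -/
noncomputable def gs (ρ : Measure Z) (k : Z → ℂ) (τ : Z → EE d) (ξ : EE d) : ℂ :=
  ∫ z, k z * e (-inner ℝ (τ z) ξ) ∂ρ

variable (ρ : Measure Z) [SFinite ρ] {k : Z → ℂ} {τ : Z → EE d} {f : EE d → ℂ} {A : ℝ}

theorem meas2 (hk : Measurable k) (hτ : Measurable τ) (hf : Measurable f) :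
    Measurable (fun q : EE d × Z => k q.2 * f (q.1 - τ q.2)) :=
  (hk.comp measurable_snd).mul (hf.comp (measurable_fst.sub (hτ.comp measurable_snd)))

theorem gp_meas (hk : Measurable k) (hτ : Measurable τ) (hf : Measurable f) :
    Measurable (gp ρ k τ f) := by
  have h1 := (meas2 hk hτ hf).stronglyMeasurable
  exact (StronglyMeasurable.integral_prod_right (ν := ρ) h1).measurable

theorem gp_bound (hki : Integrable k ρ) (hb : ∀ x, ‖f x‖ ≤ A) (x : EE d) :
    ‖gp ρ k τ f x‖ ≤ (∫ z, ‖k z‖ ∂ρ) * A := by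
  unfold gp
  refine (norm_integral_le_of_norm_le (g := fun z => ‖k z‖ * A) (hki.norm.mul_const A)
    (ae_of_all _ fun z => ?_)).trans (le_of_eq (integral_mul_const A _))
  rw [norm_mul]
  exact mul_le_mul_of_nonneg_left (hb _) (norm_nonneg _)

theorem int2 (hk : Measurable k) (hki : Integrable k ρ) (hτ : Measurable τ) (hf : Measurable f)
    (hfi : Integrable f) :
    Integrable (fun q : EE d × Z => k q.2 * f (q.1 - τ q.2)) (volume.prod ρ) := by
  rw [integrable_prod_iff' (meas2 hk hτ hf).aestronglyMeasurable]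
  refine ⟨ae_of_all _ fun z => (hfi.comp_sub_right (τ z)).const_mul (k z), ?_⟩
  have h1 : ∀ z, ∫ x : EE d, ‖k z * f (x - τ z)‖ = ‖k z‖ * ∫ x, ‖f x‖ := by
    intro z
    simp_rw [norm_mul]
    rw [integral_const_mul, integral_sub_right_eq_self (fun x => ‖f x‖)]
  simp_rw [h1]
  exact hki.norm.mul_const _

theorem gp_int (hk : Measurable k) (hki : Integrable k ρ) (hτ : Measurable τ)
    (hf : Measurable f) (hfi : Integrable f) : Integrable (gp ρ k τ f) :=
  (int2 ρ hk hki hτ hf hfi).integral_prod_left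

theorem gp_BI (hk : Measurable k) (hki : Integrable k ρ) (hτ : Measurable τ) (h : BI A f) :
    BI ((∫ z, ‖k z‖ ∂ρ) * A) (gp ρ k τ f) :=
  ⟨gp_meas ρ hk hτ h.1, gp_int ρ hk hki hτ h.1 h.2.1, gp_bound ρ hki h.2.2⟩

theorem gp_fourier (hk : Measurable k) (hki : Integrable k ρ) (hτ : Measurable τ)
    (hf : Measurable f) (hfi : Integrable f) (ξ : EE d) :
    𝓕 (gp ρ k τ f) ξ = gs ρ k τ ξ * 𝓕 f ξ := by
  rw [Pool.Agent.H19.LS.fourier_e, Pool.Agent.H19.LS.fourier_e]
  have h1 : ∀ y : EE d, e (-inner ℝ y ξ) * gp ρ k τ f y =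
      ∫ z, e (-inner ℝ y ξ) * (k z * f (y - τ z)) ∂ρ := by
    intro y
    unfold gp
    rw [integral_const_mul]
  simp_rw [h1]
  have hI : Integrable (Function.uncurry fun (y : EE d) (z : Z) =>
      e (-inner ℝ y ξ) * (k z * f (y - τ z))) (volume.prod ρ) := by
    apply (int2 ρ hk hki hτ hf hfi).bdd_mul (c := 1)
    · refine (continuous_e.measurable.comp ?_).aestronglyMeasurable
      exact (measurable_fst.inner_const).neg
    · exact ae_of_all _ fun ζ => (norm_e _).le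
  rw [integral_integral_swap hI]
  unfold gs
  rw [← integral_mul_const]
  refine integral_congr_ae (ae_of_all _ fun z => ?_)
  simp only
  have h2 : ∀ y : EE d, e (-inner ℝ y ξ) * (k z * f (y - τ z)) =
      (k z * e (-inner ℝ (τ z) ξ)) * (e (-inner ℝ (y - τ z) ξ) * f (y - τ z)) := by
    intro y
    have : e (-inner ℝ y ξ) = e (-inner ℝ (τ z) ξ) * e (-inner ℝ (y - τ z) ξ) := by
      rw [← e_add, inner_sub_left]
      congr 1
      ring
    rw [this]
    ring
  simp_rw [h2]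
  rw [integral_const_mul]
  congr 1
  exact integral_sub_right_eq_self (fun y : EE d => e (-inner ℝ y ξ) * f y) (τ z)

theorem gp_MM (hk : Measurable k) (hki : Integrable k ρ) (hτ : Measurable τ)
    (hf : Measurable f) (hfi : Integrable f) (m : EE d → ℂ) (x : EE d) :
    MM m (gp ρ k τ f) x = MM (fun ξ => m ξ * gs ρ k τ ξ) f x := by
  unfold MM
  refine integral_congr_ae (ae_of_all _ fun ξ => ?_)
  simp only
  rw [gp_fourier ρ hk hki hτ hf hfi]
  ring

theorem MM_gp (hk : Measurable k) (hki : Integrable k ρ) (hτ : Measurable τ)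
    (hfi : Integrable f) (m : EE d → ℂ) (hm : Measurable m) (hmi : Integrable m) (x : EE d) :
    gp ρ k τ (MM m f) x = MM (fun ξ => m ξ * gs ρ k τ ξ) f x := by
  have hfb : ∀ ξ, ‖𝓕 f ξ‖ ≤ ∫ y, ‖f y‖ := by
    intro ξ
    rw [Pool.Agent.H19.LS.fourier_e]
    refine (norm_integral_le_integral_norm _).trans (le_of_eq ?_)
    congr 1
    ext y
    rw [norm_mul, norm_e, one_mul]
  have hfc : Continuous (𝓕 f) := Pool.Agent.H19.LS.fourier_cont f hfi
  have hh1 : Integrable fun ξ => m ξ * 𝓕 f ξ :=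
    hmi.mul_bdd (c := ∫ y, ‖f y‖) hfc.aestronglyMeasurable (ae_of_all _ hfb)
  unfold gp
  have h1 : ∀ z : Z, k z * MM m f (x - τ z) =
      ∫ ξ : EE d, e (inner ℝ (x - τ z) ξ) * (k z * (m ξ * 𝓕 f ξ)) := by
    intro z
    unfold MM
    rw [← integral_const_mul]
    refine integral_congr_ae (ae_of_all _ fun ξ => ?_)
    simp only
    ring
  simp_rw [h1]
  have hI : Integrable (Function.uncurry fun (z : Z) (ξ : EE d) =>
      e (inner ℝ (x - τ z) ξ) * (k z * (m ξ * 𝓕 f ξ))) (ρ.prod volume) := by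
    apply (hki.mul_prod hh1).bdd_mul (c := 1)
    · refine (continuous_e.measurable.comp ?_).aestronglyMeasurable
      exact Measurable.inner (measurable_const.sub (hτ.comp measurable_fst)) measurable_snd
    · exact ae_of_all _ fun ζ => (norm_e _).le
  rw [integral_integral_swap hI]
  unfold MM
  refine integral_congr_ae (ae_of_all _ fun ξ => ?_)
  simp only
  unfold gs
  have h2 : ∀ z : Z, e (inner ℝ (x - τ z) ξ) * (k z * (m ξ * 𝓕 f ξ)) =
      (e (inner ℝ x ξ) * (m ξ * 𝓕 f ξ)) * (k z * e (-inner ℝ (τ z) ξ)) := by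
    intro z
    have : e (inner ℝ (x - τ z) ξ) = e (inner ℝ x ξ) * e (-inner ℝ (τ z) ξ) := by
      rw [← e_add, inner_sub_left]
      congr 1
    rw [this]
    ring
  simp_rw [h2]
  rw [integral_const_mul]
  ring

/-- bound of the symbol gives the bound in `L²` -/
theorem gp_L2 (hk : Measurable k) (hki : Integrable k ρ) (hτ : Measurable τ) (h : BI A f)
    {B : ℝ} (hB : ∀ ξ, ‖gs ρ k τ ξ‖ ≤ B) :
    ∫⁻ x, ‖gp ρ k τ f x‖ₑ ^ 2 ≤ ENNReal.ofReal (B ^ 2) * ∫⁻ x, ‖f x‖ₑ ^ 2 := by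
  have hB0 : 0 ≤ B := (norm_nonneg _).trans (hB 0)
  have hg := gp_BI ρ hk hki hτ h
  have hL2 : ∀ (C : ℝ) (g : EE d → ℂ), BI C g → MemLp g 2 := by
    intro C g hg
    refine Pool.Agent.H19.LS.memLp_two_of g hg.1.aestronglyMeasurable ?_
    have h1 : ∫⁻ y, ‖g y‖ₑ ^ 2 ≤ ∫⁻ y, ENNReal.ofReal C * ‖g y‖ₑ := by
      refine lintegral_mono fun y => ?_
      rw [sq]
      gcongr
      rw [← ofReal_norm]
      exact ENNReal.ofReal_le_ofReal (hg.2.2 y)
    refine ne_top_of_le_ne_top ?_ h1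
    rw [lintegral_const_mul _ hg.1.enorm]
    exact ENNReal.mul_ne_top ENNReal.ofReal_ne_top hg.2.1.2.ne
  rw [← Pool.Agent.H19.LS.plancherelE _ hg.2.1 (hL2 _ _ hg),
    ← Pool.Agent.H19.LS.plancherelE f h.2.1 (hL2 _ _ h), ← lintegral_const_mul']
  · refine lintegral_mono fun ξ => ?_
    simp only
    rw [gp_fourier ρ hk hki hτ h.1 h.2.1, enorm_mul, mul_pow]
    gcongr
    rw [← ofReal_norm, ← ENNReal.ofReal_pow (norm_nonneg _)]
    exact ENNReal.ofReal_le_ofReal (pow_le_pow_left₀ (norm_nonneg _) (hB ξ) 2)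
  · exact ENNReal.ofReal_ne_top

end GP

/-! ### smooth symbols with compact support -/

/-- `MK s` is integrable, continuous, and its Fourier transform is `s` -/
theorem MK_schwartz {n : ℕ} (s : EE n → ℂ) (hs : SC s) :
    Integrable (MK s) ∧ Continuous (MK s) ∧
      ∀ η : EE n, ∫ z : EE n, MK s z * e (-inner ℝ z η) = s η := by
  set S : SchwartzMap (EE n) ℂ := hs.2.toSchwartzMap hs.1 with hS
  have hSs : ∀ ξ, S ξ = s ξ := fun ξ => rfl
  have hMK : MK s = ((𝓕⁻ S : SchwartzMap (EE n) ℂ) : EE n → ℂ) := by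
    funext x
    have h1 : (𝓕⁻ S : SchwartzMap (EE n) ℂ) x = 𝓕⁻ (S : EE n → ℂ) x := by
      rw [SchwartzMap.fourierInv_coe]
    rw [h1, Real.fourierInv_eq']
    unfold MK
    refine integral_congr_ae (ae_of_all _ fun ξ => ?_)
    simp only
    rw [smul_eq_mul, hSs, real_inner_comm]
    rfl
  refine ⟨?_, ?_, ?_⟩
  · rw [hMK]; exact (𝓕⁻ S).integrable
  · rw [hMK]; exact (𝓕⁻ S).continuous
  · intro η
    have h1 : 𝓕 (𝓕⁻ S : SchwartzMap (EE n) ℂ) = S := FourierTransform.fourier_fourierInv_eq S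
    have h2 : 𝓕 ((𝓕⁻ S : SchwartzMap (EE n) ℂ) : EE n → ℂ) η = s η := by
      have h3 : (𝓕 (𝓕⁻ S : SchwartzMap (EE n) ℂ) : SchwartzMap (EE n) ℂ) η = S η := by rw [h1]
      rw [SchwartzMap.fourier_coe] at h3
      exact h3
    rw [← h2, Pool.Agent.H19.LS.fourier_e, hMK]
    refine integral_congr_ae (ae_of_all _ fun z => ?_)
    simp only
    ring

end Pool.Agent.H4.TN
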