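import Pool.Agent.H4.TN.GP
import Pool.Agent.H19.LS.PL
import Pool.Agent.H19.LS.PC2

/-!
# MP_ee74d2_an, board tn, module PLP: properties of the planar half wave operators
-/

set_option autoImplicit false

namespace Pool.Agent.H4.TN

open MeasureTheory Set FourierTransform
open Pool.Agent.H83.LS Pool.Agent.H93.AR Pool.Agent.H54.LS Pool.Agent.H14.LS Pool.Agent.H83.AR
open Pool.Agent.H84.BR Pool.Agent.H84.B2 Pool.Agent.H93.TN
open scoped ENNReal NNReal ContDiff

/-- the symbol of `KK` -/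
noncomputable def bK (t lam Lam : ℝ) (ξ : ℝ × ℝ) : ℂ :=
  e (t * Real.sqrt (ξ.1 ^ 2 + ξ.2 ^ 2)) *
    ((chi (Real.sqrt (ξ.1 ^ 2 + ξ.2 ^ 2) / lam) * chis (ξ.1 / Lam) : ℝ) : ℂ)

theorem KK_eq_Fi (t lam Lam : ℝ) : KK t lam Lam = Fi (bK t lam Lam) := by
  funext x
  unfold KK Fi bK
  refine integral_congr_ae (ae_of_all _ fun ξ => ?_)
  simp only
  rw [e_add]
  ring

theorem bK_TC (t lam Lam : ℝ) (hl : 0 < lam) : TC (bK t lam Lam) := by
  constructor
  · rw [contDiff_iff_contDiffAt]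
    intro ξ
    by_cases h : ξ.1 ^ 2 + ξ.2 ^ 2 = 0
    · -- near the origin the symbol vanishes
      have hev : bK t lam Lam =ᶠ[nhds ξ] fun _ => 0 := by
        have hc : Continuous fun ζ : ℝ × ℝ => Real.sqrt (ζ.1 ^ 2 + ζ.2 ^ 2) / lam := by fun_prop
        have h0 : Real.sqrt (ξ.1 ^ 2 + ξ.2 ^ 2) / lam < 1 / 2 := by
          rw [h, Real.sqrt_zero, zero_div]
          norm_num
        filter_upwards [hc.continuousAt.eventually_lt continuousAt_const h0] with ζ hζ
        unfold bK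
        have : chi (Real.sqrt (ζ.1 ^ 2 + ζ.2 ^ 2) / lam) = 0 := by
          by_contra hne
          have := (Pool.Agent.H19.LS.chi_supp _ hne).1
          linarith
        rw [this]
        simp
      exact contDiffAt_const.congr_of_eventuallyEq hev
    · have hs : ContDiffAt ℝ (⊤ : ℕ∞) (fun ζ : ℝ × ℝ => Real.sqrt (ζ.1 ^ 2 + ζ.2 ^ 2)) ξ := by
        apply ContDiffAt.sqrt
        · exact ((contDiff_fst.pow 2).add (contDiff_snd.pow 2)).contDiffAt
        · exact h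
      have h1 : ContDiffAt ℝ (⊤ : ℕ∞)
          (fun ζ : ℝ × ℝ => e (t * Real.sqrt (ζ.1 ^ 2 + ζ.2 ^ 2))) ξ :=
        contDiff_e.contDiffAt.comp ξ (contDiffAt_const.mul hs)
      have h2 : ContDiffAt ℝ (⊤ : ℕ∞)
          (fun ζ : ℝ × ℝ => chi (Real.sqrt (ζ.1 ^ 2 + ζ.2 ^ 2) / lam)) ξ :=
        Pool.Agent.H19.LS.chi_smooth.contDiffAt.comp ξ (hs.div_const lam)
      have h3 : ContDiffAt ℝ (⊤ : ℕ∞) (fun ζ : ℝ × ℝ => chis (ζ.1 / Lam)) ξ :=
        Pool.Agent.H19.LS.chis_smooth.contDiffAt.comp ξ (contDiffAt_fst.div_const Lam)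
      exact h1.mul (Complex.ofRealCLM.contDiff.contDiffAt.comp ξ (h2.mul h3))
  · refine HasCompactSupport.of_support_subset_isCompact
      (isCompact_closedBall (0 : ℝ × ℝ) (2 * lam)) ?_
    intro ξ hξ
    have h1 : chi (Real.sqrt (ξ.1 ^ 2 + ξ.2 ^ 2) / lam) ≠ 0 := by
      intro h0
      apply hξ
      unfold bK
      rw [h0]
      simp
    have h2 := (Pool.Agent.H19.LS.chi_supp _ h1).2
    rw [div_le_iff₀ hl] at h2
    rw [mem_closedBall_zero_iff, Prod.norm_def]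
    apply max_le
    · rw [Real.norm_eq_abs]
      refine (Real.abs_le_sqrt ?_).trans h2
      nlinarith [sq_nonneg ξ.2]
    · rw [Real.norm_eq_abs]
      refine (Real.abs_le_sqrt ?_).trans h2
      nlinarith [sq_nonneg ξ.1]

theorem KK_int (t lam Lam : ℝ) (hl : 0 < lam) : Integrable (KK t lam Lam) := by
  rw [KK_eq_Fi]
  exact (Pool.Agent.H19.LS.PL_proof.2 _ (bK_TC t lam Lam hl)).1

theorem KK_inv (t lam Lam : ℝ) (hl : 0 < lam) (ζ : ℝ × ℝ) :
    ∫ r : ℝ × ℝ, KK t lam Lam r * e (-(r.1 * ζ.1 + r.2 * ζ.2)) = bK t lam Lam ζ := by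
  rw [← (Pool.Agent.H19.LS.PL_proof.2 _ (bK_TC t lam Lam hl)).2 ζ, ← KK_eq_Fi]
  unfold Ff
  refine integral_congr_ae (ae_of_all _ fun r => ?_)
  simp only
  ring

theorem pf_plp (hKL1 : T_KL1) (_hSP2 : T_SP2) (hJM : Pool.Agent.H83.AR.T_JM) : T_PLP := by
  intro a b _ _
  obtain ⟨C, hC⟩ := hKL1.1
  obtain ⟨hj1, hj2, hj3, -, hj5, hj6, hj7, -⟩ := hJM a b
  refine ⟨C, C.2, ?_⟩
  intro lam Lam t A u w g hlam hLam hLL ht hu hw hg
  have hl : 0 < lam := by linarith
  have hA : 0 ≤ A := (norm_nonneg _).trans (hg.2.2 0)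
  set τ : ℝ × ℝ → EE (a + b) := fun r => jm a b (r.1 • u) (r.2 • w) with hτd
  have hτ : Measurable τ := by
    have : Continuous fun r : ℝ × ℝ => (r.1 • u, r.2 • w) :=
      (continuous_fst.smul continuous_const).prodMk (continuous_snd.smul continuous_const)
    exact (hj5.comp this).measurable
  have hKm : Measurable (KK t lam Lam) := (Pool.Agent.H19.LS.KK_cont t lam Lam hl).measurable
  have hKi := KK_int t lam Lam hl
  have hpl : pl a b u w (KK t lam Lam) g = gp volume (KK t lam Lam) τ g := rfl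
  rw [hpl]
  constructor
  · have h1 := gp_BI volume hKm hKi hτ hg
    refine ⟨h1.1, h1.2.1, fun x => (h1.2.2 x).trans ?_⟩
    refine mul_le_mul_of_nonneg_right ?_ hA
    have h2 := hC lam Lam t hlam hLam hLL (by linarith [ht.1]) ht.2
    rw [integral_norm_eq_lintegral_enorm hKm.aestronglyMeasurable]
    refine ENNReal.toReal_le_of_le_ofReal (mul_nonneg (NNReal.coe_nonneg C) (Real.sqrt_nonneg _)) ?_
    rw [ENNReal.ofReal_mul (NNReal.coe_nonneg C), ENNReal.ofReal_coe_nnreal]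
    exact h2
  · intro ξ
    rw [gp_fourier volume hKm hKi hτ hg.1 hg.2.1]
    congr 1
    have h1 : gs volume (KK t lam Lam) τ ξ = bK t lam Lam
        ((inner ℝ (p1 a b ξ) u : ℝ), (inner ℝ (p2 a b ξ) w : ℝ)) := by
      rw [← KK_inv t lam Lam hl]
      unfold gs
      refine integral_congr_ae (ae_of_all _ fun r => ?_)
      simp only [hτd]
      rw [hj3, (hj1 _ _).1, (hj1 _ _).2, real_inner_smul_left, real_inner_smul_left,
        real_inner_comm, real_inner_comm w]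
    rw [h1]
    rfl

end Pool.Agent.H4.TN
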