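import Pool.Agent.H4.TN.PLP

/-!
# MP_ee74d2_an, board tn, module PLS: local smoothing for the planar operators
-/

set_option autoImplicit false

namespace Pool.Agent.H4.TN

open MeasureTheory Set FourierTransform
open Pool.Agent.H83.LS Pool.Agent.H93.AR Pool.Agent.H54.LS Pool.Agent.H14.LS Pool.Agent.H83.AR
open Pool.Agent.H84.BR Pool.Agent.H84.B2 Pool.Agent.H93.TN
open scoped ENNReal NNReal ContDiff

/-- `KK` is jointly measurable in time and position -/
theorem KK_meas (lam Lam : ℝ) : Measurable (fun q : ℝ × (ℝ × ℝ) => KK q.1 lam Lam q.2) := by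
  unfold KK
  have hchi : Measurable chi := Pool.Agent.H19.LS.chi_smooth.continuous.measurable
  have hchis : Measurable chis := Pool.Agent.H19.LS.chis_smooth.continuous.measurable
  have h1 : StronglyMeasurable (Function.uncurry fun (q : ℝ × (ℝ × ℝ)) (ξ : ℝ × ℝ) =>
      e (q.2.1 * ξ.1 + q.2.2 * ξ.2 + q.1 * Real.sqrt (ξ.1 ^ 2 + ξ.2 ^ 2)) *
      ((chi (Real.sqrt (ξ.1 ^ 2 + ξ.2 ^ 2) / lam) * chis (ξ.1 / Lam) : ℝ) : ℂ)) := by
    apply Measurable.stronglyMeasurable
    apply Measurable.mul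
    · refine continuous_e.measurable.comp ?_
      fun_prop
    · refine Complex.measurable_ofReal.comp ?_
      apply Measurable.mul
      · refine hchi.comp ?_
        fun_prop
      · refine hchis.comp ?_
        fun_prop
  exact h1.integral_prod_right.measurable

theorem meas3 {X Y Z W : Type} [MeasurableSpace X] [MeasurableSpace Y] [MeasurableSpace Z]
    [MeasurableSpace W] {K : X × Z → ℂ} {g : W → ℂ} {φ : Y × Z → W} (hK : Measurable K)
    (hg : Measurable g) (hφ : Measurable φ) :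
    Measurable (fun p : (X × Y) × Z => K (p.1.1, p.2) * g (φ (p.1.2, p.2))) := by
  have h1 : Measurable (fun p : (X × Y) × Z => (p.1.1, p.2)) :=
    (measurable_fst.comp measurable_fst).prodMk measurable_snd
  have h2 : Measurable (fun p : (X × Y) × Z => (p.1.2, p.2)) :=
    (measurable_snd.comp measurable_fst).prodMk measurable_snd
  exact (hK.comp h1).mul ((hg.comp hφ).comp h2)

/-- the planar operators are jointly measurable -/
theorem pl_meas {a b : ℕ} (hJM : Pool.Agent.H83.AR.T_JM) (u : EE a) (w : EE b) (lam Lam : ℝ)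
    (g : EE (a + b) → ℂ) (hg : Measurable g) :
    Measurable (fun p : ℝ × EE (a + b) => pl a b u w (KK p.1 lam Lam) g p.2) := by
  obtain ⟨-, -, -, -, hj5, -⟩ := hJM a b
  have hτ : Measurable (fun r : ℝ × ℝ => jm a b (r.1 • u) (r.2 • w)) := by
    have : Continuous fun r : ℝ × ℝ => (r.1 • u, r.2 • w) :=
      (continuous_fst.smul continuous_const).prodMk (continuous_snd.smul continuous_const)
    exact (hj5.comp this).measurable
  have hφ : Measurable (fun q : EE (a + b) × (ℝ × ℝ) =>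
      q.1 - jm a b (q.2.1 • u) (q.2.2 • w)) :=
    measurable_fst.sub (hτ.comp measurable_snd)
  have h0 := (meas3 (KK_meas lam Lam) hg hφ).stronglyMeasurable
  have h2 : Measurable (fun p : ℝ × EE (a + b) => ∫ r : ℝ × ℝ, KK p.1 lam Lam r *
      g (p.2 - jm a b (r.1 • u) (r.2 • w))) :=
    (StronglyMeasurable.integral_prod_right' (ν := (volume : Measure (ℝ × ℝ))) h0).measurable
  exact h2

theorem jm_sub {a b : ℕ} (y y' : EE a) (z z' : EE b) :
    jm a b y z - jm a b y' z' = jm a b (y - y') (z - z') := by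
  ext i
  unfold jm
  simp only [PiLp.sub_apply]
  refine Fin.addCases (fun j => ?_) (fun j => ?_) i
  · simp [Fin.append_left]
  · simp [Fin.append_right]

/-- integration over the fibres -/
theorem fib {d n : ℕ} (Φ : EE d × (ℝ × ℝ) ≃ᵐ EE n) (hΦ : MeasurePreserving Φ volume volume)
    (F : ℝ → EE n → ℝ≥0∞) (hF : Measurable (fun p : ℝ × EE n => F p.1 p.2))
    (G : EE n → ℝ≥0∞) (hG : Measurable G) (S : Set (EE n)) (T : Set (ℝ × ℝ))
    (hS : MeasurableSet S) (hT : MeasurableSet T)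
    (hST : ∀ (y : EE d) (r : ℝ × ℝ), Φ (y, r) ∈ S ↔ r ∈ T) (I : Set ℝ) (D : ℝ≥0∞)
    (h : ∀ᵐ y : EE d, ∫⁻ t in I, ∫⁻ r in T, F t (Φ (y, r)) ≤ D * ∫⁻ r, G (Φ (y, r))) :
    ∫⁻ t in I, ∫⁻ x in S, F t x ≤ D * ∫⁻ x, G x := by
  have hΦm : Measurable (fun q : EE d × (ℝ × ℝ) => Φ q) := Φ.measurable
  have hFt : ∀ t, Measurable (F t) := fun t => hF.comp (measurable_const.prodMk measurable_id)
  have h1 : ∀ t, ∫⁻ x in S, F t x = ∫⁻ y, ∫⁻ r in T, F t (Φ (y, r)) := by
    intro t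
    rw [← lintegral_indicator hS, ← hΦ.lintegral_comp ((hFt t).indicator hS),
      Measure.volume_eq_prod,
      lintegral_prod (fun q : EE d × (ℝ × ℝ) => S.indicator (F t) (Φ q))
        (((hFt t).indicator hS).comp hΦm).aemeasurable]
    refine lintegral_congr fun y => ?_
    rw [← lintegral_indicator hT]
    refine lintegral_congr fun r => ?_
    by_cases hr : r ∈ T
    · rw [indicator_of_mem hr, indicator_of_mem ((hST y r).2 hr)]
    · rw [indicator_of_notMem hr, indicator_of_notMem fun hh => hr ((hST y r).1 hh)]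
  have h2 : ∫⁻ x, G x = ∫⁻ y, ∫⁻ r, G (Φ (y, r)) := by
    rw [← hΦ.lintegral_comp hG, Measure.volume_eq_prod,
      lintegral_prod (fun q : EE d × (ℝ × ℝ) => G (Φ q)) (hG.comp hΦm).aemeasurable]
  simp_rw [h1]
  rw [h2, lintegral_lintegral_swap]
  · refine (lintegral_mono_ae h).trans (le_of_eq ?_)
    rw [lintegral_const_mul]
    exact (hG.comp hΦm).lintegral_prod_right'
  · apply Measurable.aemeasurable
    have h3 : Measurable (fun p : (ℝ × EE d) × (ℝ × ℝ) => F p.1.1 (Φ (p.1.2, p.2))) := by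
      have h4 : Measurable (fun p : (ℝ × EE d) × (ℝ × ℝ) => (p.1.1, Φ (p.1.2, p.2))) :=
        (measurable_fst.comp measurable_fst).prodMk (hΦm.comp
          ((measurable_snd.comp measurable_fst).prodMk measurable_snd))
      exact hF.comp h4
    exact Measurable.lintegral_prod_right' (ν := volume.restrict T) h3

theorem pf_pls (hS2D : T_S2D) (_hKL1 : T_KL1) (hSP2 : T_SP2) (hJM : Pool.Agent.H83.AR.T_JM) :
    T_PLS := by
  intro a b q η ha hb hq hq3 hη
  obtain ⟨C, hC⟩ := hS2D q η hq hq3 hη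
  refine ⟨C, ?_⟩
  obtain ⟨a0, rfl⟩ : ∃ a0, a = a0 + 1 := ⟨a - 1, by omega⟩
  obtain ⟨b0, rfl⟩ : ∃ b0, b = b0 + 1 := ⟨b - 1, by omega⟩
  intro lam Lam A u w g hlam hLam hLL hu hw hg
  have hmeas := pl_meas hJM u w lam Lam g hg.1
  refine ⟨hmeas, ?_⟩
  obtain ⟨-, -, -, -, hj5, hj6, hj7, -⟩ := hJM (a0 + 1) (b0 + 1)
  obtain ⟨Φ, hΦ, hΦc, hΦ3, hΦ4, -⟩ := hSP2 a0 b0 u w hu hw
  have hΦm : Measurable (fun q : EE (a0 + b0) × (ℝ × ℝ) => Φ q) := Φ.measurable
  have hgy : ∀ y : EE (a0 + b0), Measurable fun r : ℝ × ℝ => g (Φ (y, r)) := fun y =>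
    hg.1.comp (hΦm.comp (measurable_const.prodMk measurable_id))
  have hgi : ∀ᵐ y : EE (a0 + b0), Integrable fun r : ℝ × ℝ => g (Φ (y, r)) := by
    have h1 : Integrable (fun q : EE (a0 + b0) × (ℝ × ℝ) => g (Φ q)) :=
      hΦ.integrable_comp_of_integrable hg.2.1
    rw [Measure.volume_eq_prod] at h1
    exact h1.prod_right_ae
  have hcv : ∀ (K : ℝ × ℝ → ℂ) (y : EE (a0 + b0)) (r : ℝ × ℝ),
      pl (a0 + 1) (b0 + 1) u w K g (Φ (y, r)) = cv K (fun r => g (Φ (y, r))) r := by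
    intro K y r
    unfold pl cv
    rw [← integral_sub_left_eq_self (fun s : ℝ × ℝ => K s *
      g (Φ (y, r) - jm (a0 + 1) (b0 + 1) (s.1 • u) (s.2 • w))) volume r]
    refine integral_congr_ae (ae_of_all _ fun s => ?_)
    simp only
    congr 2
    rw [hΦ3 y r, hΦ3 y s, add_sub_assoc, jm_sub]
    congr 1
    rw [← sub_smul, ← sub_smul]
    congr 1
    · congr 1
      simp
    · congr 1
      simp
  have hpq : Measurable (fun p : ℝ × EE ((a0 + 1) + (b0 + 1)) =>
      ‖pl (a0 + 1) (b0 + 1) u w (KK p.1 lam Lam) g p.2‖ₑ ^ q) := hmeas.enorm.pow_const q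
  have hG : Measurable (fun x : EE ((a0 + 1) + (b0 + 1)) => ‖g x‖ₑ ^ 2) :=
    hg.1.enorm.pow_const 2
  constructor
  · have h1 := fib Φ hΦ (fun t x => ‖pl (a0 + 1) (b0 + 1) u w (KK t lam Lam) g x‖ₑ ^ q) hpq
      (fun x => ‖g x‖ₑ ^ 2) hG univ univ MeasurableSet.univ MeasurableSet.univ
      (fun _ _ => by simp) (Icc (1 : ℝ) 2) (C * ENNReal.ofReal (lam ^ η * A ^ (q - 2))) ?_
    · simpa only [Measure.restrict_univ] using h1
    · filter_upwards [hgi] with y hy
      simp only [Measure.restrict_univ]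
      simp_rw [hcv]
      exact (hC lam Lam _ A hlam hLam hLL (hgy y) hy fun r => hg.2.2 _).1
  · intro σ hσ
    refine fib Φ hΦ (fun t x => ‖pl (a0 + 1) (b0 + 1) u w (KK t lam Lam) g x‖ₑ ^ q) hpq
      (fun x => ‖g x‖ₑ ^ 2) hG {x | |(inner ℝ (p1 (a0 + 1) (b0 + 1) x) u : ℝ)| ≤ σ}
      {r | |r.1| ≤ σ} ?_ ?_ (fun y r => ?_) (Icc (1 : ℝ) 2)
      (C * ENNReal.ofReal (lam ^ η * (σ * lam / Lam) ^ (2 - q / 2) * A ^ (q - 2))) ?_
    · exact measurableSet_le ((hj6.inner continuous_const).abs.measurable) measurable_const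
    · exact measurableSet_le (continuous_fst.abs.measurable) measurable_const
    · simp only [mem_setOf_eq]
      rw [(hΦ4 y r).1]
    · filter_upwards [hgi] with y hy
      simp_rw [hcv]
      exact (hC lam Lam _ A hlam hLam hLL (hgy y) hy fun r => hg.2.2 _).2 σ hσ

end Pool.Agent.H4.TN
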